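import Pool.Agent.U187.NT.Defs
import Pool.Agent.U187.MF.Fam
import Pool.Agent.Y149.TL.Sub

/-! The mean squares on the edge line for tensor products with sums of newforms. -/

set_option autoImplicit false

open Finset Filter Topology Complex Polynomial

namespace Pool.Agent.U187.NT

open CongruenceSubgroup
open scoped MatrixGroups
open Pool.Agent.H341R2 (E lam lam_tendsto)
open Pool.Agent.Y149.CM (LFun sum_product)
open Pool.Agent.Y149.CR (zr cross_le_t)
open Pool.Agent.Y149.PK (tens sq_perturb tuples card_tup sum_tup_succ E_fsum E_smul lam_pos)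
open Pool.Agent.Y149.TL (Motive IsEuler tensL HasOrder edge size Pure tens_pure tens_sum LineFam wT
  mt norm_mt cpow_half line_log line_order)
open Pool.Agent.Y722.RS (S2 rc tt tt_le rc_eq)
open Pool.Agent.W165.RS (ac)
open Pool.Agent.U187.MF (IsNewforms WW WW_le comb_le tt_le')

section
variable {Ω : Type} {L : Ω → ℕ} {f : ∀ x, CuspForm (Gamma0 (L x) : Subgroup (GL (Fin 2) ℝ)) 2}

/-- one-sided orthogonality at different heights -/
theorem comb_twist (hf : IsNewforms L f) (a b : Ω →₀ ℕ) {τ : ℝ} (hτ : τ ≠ 0) : ∃ C : ℝ,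
    ∀ᶠ ε : ℝ in 𝓝[>] 0, (E ε fun p : Nat.Primes => WW f a p * WW f b p * zr τ p) ≤ C := by
  classical
  have hp : ∀ x y : Ω, ∃ C : ℝ, ∀ᶠ ε : ℝ in 𝓝[>] 0,
      (E ε fun p : Nat.Primes => tt (f x) p * tt (f y) p * zr τ p) ≤ C := by
    intro x y
    have hx : NeZero (L x) := ⟨hf.pos x⟩
    have hy : NeZero (L y) := ⟨hf.pos y⟩
    exact cross_le_t (hf.hecke x) (hf.hecke y) hτ
  choose C hC using hp
  refine ⟨∑ x ∈ a.support, ∑ y ∈ b.support, (a x : ℝ) * (b y) * C x y, ?_⟩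
  have hev : ∀ᶠ ε : ℝ in 𝓝[>] 0, ∀ x ∈ a.support, ∀ y ∈ b.support,
      (E ε fun p : Nat.Primes => tt (f x) p * tt (f y) p * zr τ p) ≤ C x y := by
    rw [Filter.eventually_all_finset]
    intro x _
    rw [Filter.eventually_all_finset]
    intro y _
    exact hC x y
  filter_upwards [hev, self_mem_nhdsWithin] with ε h1 h2
  have hε : (0 : ℝ) < ε := h2
  have hz : ∀ p : Nat.Primes, |zr τ p| ≤ 1 := by
    intro p
    unfold zr
    refine (Complex.abs_re_le_norm _).trans ?_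
    rw [Pool.Agent.Y149.LN.norm_pI]
  have hb : ∀ x y (p : Nat.Primes), |(a x : ℝ) * (b y) * (tt (f x) p * tt (f y) p * zr τ p)| ≤
      (a x : ℝ) * (b y) * 4 := by
    intro x y p
    rw [abs_mul, abs_of_nonneg (by positivity)]
    refine mul_le_mul_of_nonneg_left ?_ (by positivity)
    rw [abs_mul, abs_mul]
    have g1 := tt_le' hf x p
    have g2 := tt_le' hf y p
    have g3 := hz p
    have g4 : |tt (f x) p| * |tt (f y) p| ≤ 4 := by
      nlinarith [abs_nonneg (tt (f x) p), abs_nonneg (tt (f y) p)]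
    have g5 : 0 ≤ |tt (f x) p| * |tt (f y) p| := by positivity
    nlinarith [abs_nonneg (zr τ p)]
  have e1 : (E ε fun p : Nat.Primes => WW f a p * WW f b p * zr τ p) =
      ∑ x ∈ a.support, ∑ y ∈ b.support, (a x : ℝ) * (b y) *
        E ε fun p : Nat.Primes => tt (f x) p * tt (f y) p * zr τ p := by
    have e2 : (fun p : Nat.Primes => WW f a p * WW f b p * zr τ p) = fun p : Nat.Primes =>
        ∑ x ∈ a.support, ∑ y ∈ b.support, (a x : ℝ) * (b y) *
          (tt (f x) p * tt (f y) p * zr τ p) := by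
      funext p
      unfold WW Finsupp.sum
      rw [Finset.sum_mul_sum, Finset.sum_mul]
      refine Finset.sum_congr rfl fun x _ => ?_
      rw [Finset.sum_mul]
      refine Finset.sum_congr rfl fun y _ => ?_
      ring
    rw [e2, E_fsum hε a.support _ (fun x => ∑ y ∈ b.support, (a x : ℝ) * (b y) * 4)
      (fun x _ p => (Finset.abs_sum_le_sum_abs _ _).trans
        (Finset.sum_le_sum fun y _ => hb x y p))]
    refine Finset.sum_congr rfl fun x _ => ?_
    rw [E_fsum hε b.support _ (fun y => (a x : ℝ) * (b y) * 4) (fun y _ p => hb x y p)]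
    exact Finset.sum_congr rfl fun y _ => E_smul ε _ _
  rw [e1]
  refine Finset.sum_le_sum fun x hx => Finset.sum_le_sum fun y hy => ?_
  exact mul_le_mul_of_nonneg_left (h1 x hx y hy) (by positivity)

variable {ι : Type} {G : ι → Motive} {m : ι → Ω →₀ ℕ} {h V M : ℕ}

/-- **The family on the line.** -/
theorem line_new (hf : IsNewforms L f) (hG : IsNewformFamily f G m h V M) :
    LineFam (fun e e' => ∃ x, m e x ≠ 0 ∧ m e' x ≠ 0) M (fun e p => WW f (m e) p) (2 * h)
      (Real.sqrt V) := by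
  refine ⟨fun e p => ?_, Real.sqrt_nonneg _, fun e => ?_, fun e e' hR => ?_,
    fun e e' τ hτ => comb_twist hf _ _ hτ, fun e e' hR => ?_, hG.mult⟩
  · refine (WW_le hf _ p).trans ?_
    exact mul_le_mul_of_nonneg_left (by exact_mod_cast hG.rank_le e) (by norm_num)
  · obtain ⟨C, hC⟩ := comb_le hf (m e) (m e)
    refine ⟨C, ?_⟩
    filter_upwards [hC, lam_pos] with ε h1 h2
    have e1 : (fun p : Nat.Primes => WW f (m e) p ^ 2) =
        fun p : Nat.Primes => WW f (m e) p * WW f (m e) p := by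
      funext p
      rw [sq]
    rw [e1, Real.sq_sqrt (Nat.cast_nonneg _)]
    refine h1.trans (add_le_add (mul_le_mul_of_nonneg_right ?_ h2.le) le_rfl)
    have h3 : ((m e).sum fun x k => k * (m e) x) = (m e).sum fun _ k => k ^ 2 := by
      unfold Finsupp.sum
      exact Finset.sum_congr rfl fun x _ => (sq _).symm
    rw [h3]
    exact_mod_cast hG.sq_le e
  · obtain ⟨C, hC⟩ := comb_le hf (m e) (m e')
    refine ⟨C, hC.mono fun ε h1 => h1.trans (le_of_eq ?_)⟩
    have e2 : ((m e).sum fun x k => k * (m e') x) = 0 := by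
      unfold Finsupp.sum
      refine Finset.sum_eq_zero fun x hx => ?_
      have h3 : m e' x = 0 := by
        by_contra h3
        exact hR ⟨x, Finsupp.mem_support_iff.1 hx, h3⟩
      beta_reduce
      rw [h3, mul_zero]
    rw [e2]
    simp
  · obtain ⟨x, h1, h2⟩ := hR
    exact ⟨x, h2, h1⟩

theorem frob_pure (hG : IsNewformFamily f G m h V M) (e : ι) :
    ∀ᶠ p : Nat.Primes in cofinite, Pure 1 (2 * h) p ((G e).frob p) := by
  refine (G e).pure.mono fun p hp => ⟨fun z hz => ?_, ?_⟩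
  · rw [hp.1 z hz, (hG.type e).weight]
  · rw [hp.2, (hG.type e).rank]
    exact Nat.mul_le_mul_left 2 (hG.rank_le e)

theorem frob_sum (hf : IsNewforms L f) (hG : IsNewformFamily f G m h V M) (e : ι) :
    ∀ᶠ p : Nat.Primes in cofinite, ((G e).frob p).sum =
      ((Real.sqrt (p : ℕ) : ℝ) : ℂ) * ((WW f (m e) p : ℝ) : ℂ) := by
  refine (hG.type e).trace.mono fun p hp => ?_
  have hp0 : (0 : ℝ) < (p : ℕ) := by exact_mod_cast p.2.pos
  have hs : ((Real.sqrt (p : ℕ) : ℝ) : ℂ) ≠ 0 := by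
    exact_mod_cast (Real.sqrt_pos.2 hp0).ne'
  rw [hp]
  unfold WW Finsupp.sum
  push_cast
  rw [Finset.mul_sum]
  refine Finset.sum_congr rfl fun x _ => ?_
  unfold tt
  rw [rc_eq (hf.hecke x).real]
  push_cast
  field_simp

variable {w : ℤ} {N : ℕ} {δ : Nat.Primes → Multiset ℂ}

/-- **One motive, the mean square.** -/
theorem one_mean (hf : IsNewforms L f) (hG : IsNewformFamily f G m h V M)
    (hδ : ∀ᶠ p in cofinite, Pure w N p (δ p))
    (S : Finset (ι × ℝ)) {B : ι × ℝ → Nat.Primes → ℂ[X]} (hB : ∀ x ∈ S,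
      IsEuler (w + 1) (fun p => tens (δ p) ((G x.1).frob p)) (B x))
    {η : ℝ} (hη : 0 < η) : ∀ᶠ ε : ℝ in 𝓝[>] 0,
      (∀ x ∈ S, LFun (B x) (edge (w + 1) x.2 + ε) ≠ 0) ∧
      ∑ x ∈ S, size (w + 1) (B x) x.2 ε ^ 2 ≤ 2 * M * V * (N : ℝ) ^ 2 + η := by
  classical
  have hfam := line_new hf hG
  set T : ι → Nat.Primes → ℝ := fun e p => WW f (m e) p with hT
  set Q : Nat.Primes → ℂ := Pool.Agent.Y149.TL.mt w N δ with hQ
  have hlink : ∀ x ∈ S, (∀ᶠ ε : ℝ in 𝓝[>] 0, LFun (B x) (edge (w + 1) x.2 + ε) ≠ 0) ∧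
      Tendsto (fun ε : ℝ => size (w + 1) (B x) x.2 ε - E ε (fun p => (Q p * wT T x p).re) / lam ε)
        (𝓝[>] 0) (𝓝 0) := by
    intro x hx
    refine line_log (hB x hx) (N := N * (2 * h)) ((hδ.and (frob_pure hG x.1)).mono fun p hp =>
      tens_pure hp.1 hp.2) x.2 (C0 := N * (2 * h)) (fun p => ?_)
      ((hδ.and (frob_sum hf hG x.1)).mono fun p hp => ?_)
    · refine (Complex.abs_re_le_norm _).trans ?_
      rw [norm_mul]
      exact mul_le_mul (norm_mt w N δ p) (hfam.norm_wT x p) (norm_nonneg _) (Nat.cast_nonneg _)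
    · have hp0 : (0 : ℝ) < (p : ℕ) := by exact_mod_cast p.2.pos
      congr 1
      rw [tens_sum, hp.2]
      have e1 : Q p = (δ p).sum / ((((p : ℕ) : ℝ) ^ ((w : ℝ) / 2) : ℝ) : ℂ) := by
        rw [hQ]
        unfold Pool.Agent.Y149.TL.mt
        rw [if_pos hp.1]
      have e2 : ((((p : ℕ) : ℝ) ^ (((w + 1 : ℤ) : ℝ) / 2) : ℝ) : ℂ) =
          ((((p : ℕ) : ℝ) ^ ((w : ℝ) / 2) : ℝ) : ℂ) * ((Real.sqrt (p : ℕ) : ℝ) : ℂ) := by
        rw [← Complex.ofReal_mul, Real.sqrt_eq_rpow, ← Real.rpow_add hp0]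
        congr 2
        push_cast
        ring
      have e3 : ((Real.sqrt (p : ℕ) : ℝ) : ℂ) ≠ 0 := by
        exact_mod_cast (Real.sqrt_pos.2 hp0).ne'
      have e4 := cpow_half w p
      rw [e1, e2]
      unfold wT
      rw [hT]
      simp only
      field_simp
  have h1 : ∀ᶠ ε : ℝ in 𝓝[>] 0, ∀ x ∈ S, LFun (B x) (edge (w + 1) x.2 + ε) ≠ 0 := by
    rw [Filter.eventually_all_finset]
    exact fun x hx => (hlink x hx).1
  refine h1.and (sq_perturb S (fun x ε => E ε (fun p => (Q p * wT T x p).re) / lam ε)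
    (fun x ε => size (w + 1) (B x) x.2 ε) _ (by positivity) (fun η' hη' => ?_)
    (fun x hx => (hlink x hx).2) hη)
  have h2 := hfam.bes S Q (norm_mt w N δ) hη'
  refine h2.mono fun ε h3 => h3.trans (le_of_eq ?_)
  rw [Real.sq_sqrt (Nat.cast_nonneg _)]

/-- **One motive, the orders.** -/
theorem one_order (hf : IsNewforms L f) (hG : IsNewformFamily f G m h V M)
    (hδ : ∀ᶠ p in cofinite, Pure w N p (δ p))
    (S : Finset (ι × ℝ)) {B : ι × ℝ → Nat.Primes → ℂ[X]} (hB : ∀ x ∈ S,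
      IsEuler (w + 1) (fun p => tens (δ p) ((G x.1).frob p)) (B x))
    {r : ι × ℝ → ℤ} (hr : ∀ x ∈ S, HasOrder (w + 1) (B x) x.2 (r x)) :
    ∑ x ∈ S, r x ^ 2 ≤ 2 * M * V * (N : ℤ) ^ 2 := by
  have h1 : ∑ x ∈ S, (r x : ℝ) ^ 2 ≤ 2 * M * V * (N : ℝ) ^ 2 := by
    refine le_of_forall_pos_le_add fun η hη => ?_
    have h2 : Tendsto (fun ε : ℝ => ∑ x ∈ S, size (w + 1) (B x) x.2 ε ^ 2) (𝓝[>] 0)
        (𝓝 (∑ x ∈ S, (-(r x) : ℝ) ^ 2)) :=
      tendsto_finsetSum _ fun x hx => (line_order (hr x hx)).pow 2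
    simp only [neg_sq] at h2
    refine le_of_tendsto h2 ?_
    exact (one_mean hf hG hδ S hB hη).mono fun ε h3 => h3.2
  exact_mod_cast h1

theorem tensL_pure {β : Multiset ℂ} {γ : ι → Multiset ℂ} {p : Nat.Primes} (hβ : Pure w N p β)
    (l : List ι) (hγ : ∀ e ∈ l, Pure 1 (2 * h) p (γ e)) :
    Pure (w + l.length) (N * (2 * h) ^ l.length) p (tensL β γ l) := by
  induction l with
  | nil => simpa [tensL] using hβ
  | cons e l ih =>
    have h1 := tens_pure (ih fun f hf => hγ f (by simp [hf])) (hγ e (by simp))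
    rw [tensL, List.length_cons, pow_succ, ← mul_assoc]
    have e1 : w + ((l.length + 1 : ℕ) : ℤ) = w + l.length + 1 := by push_cast; ring
    rw [e1]
    exact h1

theorem tensL_eventually (hG : IsNewformFamily f G m h V M)
    (hδ : ∀ᶠ p in cofinite, Pure w N p (δ p)) (l : List ι) :
    ∀ᶠ p : Nat.Primes in cofinite, Pure (w + l.length) (N * (2 * h) ^ l.length) p
      (tensL (δ p) (fun e => (G e).frob p) l) := by
  classical
  have h1 : ∀ᶠ p : Nat.Primes in cofinite, ∀ e ∈ l.toFinset, Pure 1 (2 * h) p ((G e).frob p) := by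
    rw [Filter.eventually_all_finset]
    exact fun e _ => frob_pure hG e
  exact (hδ.and h1).mono fun p hp => tensL_pure hp.1 l fun e he => hp.2 e (List.mem_toFinset.2 he)

/-! ### Tuples -/

theorem cons_factor {H : Motive} {k : ℕ} {e : ι} {l : Fin k → ι} {B : Nat.Primes → ℂ[X]}
    (h : IsLFactor H G (List.ofFn (Fin.cons e l : Fin (k + 1) → ι)) B) :
    IsEuler (H.weight + (List.ofFn l).length + 1) (fun p =>
      tens (tensL (H.frob p) (fun e => (G e).frob p) (List.ofFn l)) ((G e).frob p)) B := by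
  unfold IsLFactor at h
  have e0 : List.ofFn (Fin.cons e l : Fin (k + 1) → ι) = e :: List.ofFn l := by
    rw [List.ofFn_succ]
    simp only [Fin.cons_zero, Fin.cons_succ]
  rw [e0] at h
  have e1 : H.weight + ((e :: List.ofFn l).length : ℤ) = H.weight + (List.ofFn l).length + 1 := by
    rw [List.length_cons]
    push_cast
    ring
  rw [e1] at h
  exact h

/-- **The mean square over the tuples.** -/
theorem tuple_mean (hf : IsNewforms L f) (hG : IsNewformFamily f G m h V M) (H : Motive) (k : ℕ)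
    (J : Finset ι) (Θ : Finset ℝ) {B : (Fin (k + 1) → ι) → Nat.Primes → ℂ[X]}
    (hB : ∀ l, (∀ i, l i ∈ J) → IsLFactor H G (List.ofFn l) (B l)) {η : ℝ} (hη : 0 < η) :
    ∀ᶠ ε : ℝ in 𝓝[>] 0,
      (∀ l ∈ tuples J (k + 1), ∀ τ ∈ Θ, LFun (B l) (edge (H.weight + (k + 1 : ℕ)) τ + ε) ≠ 0) ∧
      ∑ l ∈ tuples J (k + 1), ∑ τ ∈ Θ, size (H.weight + (k + 1 : ℕ)) (B l) τ ε ^ 2 ≤
        2 * M * V * (H.rank : ℝ) ^ 2 * (2 * h) ^ (2 * k) * (J.card : ℝ) ^ k + η := by
  classical
  set c : ℝ := (J.card : ℝ) ^ k with hc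
  have hc0 : 0 ≤ c := by positivity
  have hw : H.weight + ((k + 1 : ℕ) : ℤ) = H.weight + (k : ℕ) + 1 := by push_cast; ring
  have h1 : ∀ᶠ ε : ℝ in 𝓝[>] 0, ∀ l ∈ tuples J k,
      (∀ x ∈ J ×ˢ Θ, LFun (B (Fin.cons x.1 l)) (edge (H.weight + (k : ℕ) + 1) x.2 + ε) ≠ 0) ∧
      ∑ x ∈ J ×ˢ Θ, size (H.weight + (k : ℕ) + 1) (B (Fin.cons x.1 l)) x.2 ε ^ 2 ≤
        2 * M * V * ((H.rank * (2 * h) ^ k : ℕ) : ℝ) ^ 2 + η / (c + 1) := by
    rw [Filter.eventually_all_finset]
    intro l hl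
    have h2 := tensL_eventually (w := H.weight) (N := H.rank) hG H.Pure (List.ofFn l)
    have h3 := one_mean hf hG h2 (J ×ˢ Θ) (B := fun x => B (Fin.cons x.1 l)) (fun x hx => by
      refine cons_factor (hB _ fun i => ?_)
      refine Fin.cases ?_ (fun j => ?_) i
      · exact (Finset.mem_product.1 hx).1
      · exact Fintype.mem_piFinset.1 hl j) (η := η / (c + 1)) (by positivity)
    rw [List.length_ofFn] at h3
    exact h3
  filter_upwards [h1] with ε h2
  rw [hw]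
  refine ⟨fun l hl τ hτ => ?_, ?_⟩
  · have hl' := Fintype.mem_piFinset.1 hl
    have h3 := (h2 (Fin.tail l) (Fintype.mem_piFinset.2 fun i => hl' i.succ)).1 (l 0, τ)
      (Finset.mem_product.2 ⟨hl' 0, hτ⟩)
    rw [Fin.cons_self_tail] at h3
    exact h3
  · rw [sum_tup_succ, Finset.sum_product_right]
    have h3 : ∀ l ∈ tuples J k, ∑ e ∈ J, ∑ τ ∈ Θ,
        size (H.weight + (k : ℕ) + 1) (B (Fin.cons e l)) τ ε ^ 2 ≤
        2 * M * V * ((H.rank * (2 * h) ^ k : ℕ) : ℝ) ^ 2 + η / (c + 1) := by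
      intro l hl
      refine le_trans (le_of_eq ?_) (h2 l hl).2
      rw [Finset.sum_product]
    refine (Finset.sum_le_card_nsmul _ _ _ h3).trans ?_
    rw [card_tup, nsmul_eq_mul]
    push_cast
    rw [← hc]
    have h4 : ((2 * (h : ℝ)) ^ k) ^ 2 = (2 * h) ^ (2 * k) := by
      rw [← pow_mul, mul_comm k 2]
    rw [mul_pow, h4]
    have h5 : c * (η / (c + 1)) ≤ η := by
      rw [← mul_div_assoc, div_le_iff₀ (by positivity)]
      nlinarith
    nlinarith

/-- **The orders for the tuples.** -/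
theorem tuple_order (hf : IsNewforms L f) (hG : IsNewformFamily f G m h V M) (H : Motive) (k : ℕ)
    (J : Finset ι) {B : (Fin (k + 1) → ι) → Nat.Primes → ℂ[X]}
    (S : Finset ((Fin (k + 1) → ι) × ℝ))
    (hJ : ∀ x ∈ S, ∀ i, x.1 i ∈ J) (hB : ∀ x ∈ S, IsLFactor H G (List.ofFn x.1) (B x.1))
    {r : (Fin (k + 1) → ι) × ℝ → ℤ}
    (hr : ∀ x ∈ S, HasOrder (H.weight + (k + 1 : ℕ)) (B x.1) x.2 (r x)) :
    ∑ x ∈ S, r x ^ 2 ≤ 2 * M * V * (H.rank : ℤ) ^ 2 * (2 * h) ^ (2 * k) * (J.card : ℤ) ^ k := by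
  classical
  have hw : H.weight + ((k + 1 : ℕ) : ℤ) = H.weight + (k : ℕ) + 1 := by push_cast; ring
  have h1 : ∀ x ∈ S, Fin.tail x.1 ∈ tuples J k := fun x hx =>
    Fintype.mem_piFinset.2 fun i => hJ x hx i.succ
  rw [← Finset.sum_fiberwise_of_maps_to h1]
  have h2 : ∀ l ∈ tuples J k, ∑ x ∈ S with Fin.tail x.1 = l, r x ^ 2 ≤
      2 * M * V * ((H.rank * (2 * h) ^ k : ℕ) : ℤ) ^ 2 := by
    intro l hl
    have h3 := tensL_eventually (w := H.weight) (N := H.rank) hG H.Pure (List.ofFn l)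
    set S' : Finset (ι × ℝ) := (S.filter fun x => Fin.tail x.1 = l).image
      fun x => (x.1 0, x.2) with hS'
    have hmem : ∀ y ∈ S', ((Fin.cons y.1 l : Fin (k + 1) → ι), y.2) ∈ S := by
      intro y hy
      obtain ⟨x, hx, rfl⟩ := Finset.mem_image.1 hy
      obtain ⟨hx1, hx2⟩ := Finset.mem_filter.1 hx
      have : ((Fin.cons (x.1 0) l : Fin (k + 1) → ι), x.2) = x := by
        rw [← hx2, Fin.cons_self_tail]
      rw [this]
      exact hx1
    have h4 := one_order hf hG h3 S' (B := fun y => B (Fin.cons y.1 l))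
      (fun y hy => cons_factor (hB _ (hmem y hy)))
      (r := fun y => r ((Fin.cons y.1 l : Fin (k + 1) → ι), y.2)) (fun y hy => by
        have h5 := hr _ (hmem y hy)
        rw [hw] at h5
        rw [List.length_ofFn]
        exact h5)
    rw [List.length_ofFn] at h4
    refine le_trans (le_of_eq ?_) h4
    rw [hS', Finset.sum_image]
    · refine Finset.sum_congr rfl fun x hx => ?_
      have hx2 := (Finset.mem_filter.1 hx).2
      have : ((Fin.cons (x.1 0) l : Fin (k + 1) → ι), x.2) = x := by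
        rw [← hx2, Fin.cons_self_tail]
      rw [this]
    · intro x hx y hy hxy
      have hx2 := (Finset.mem_filter.1 (Finset.mem_coe.1 hx)).2
      have hy2 := (Finset.mem_filter.1 (Finset.mem_coe.1 hy)).2
      simp only [Prod.mk.injEq] at hxy
      refine Prod.ext ?_ hxy.2
      rw [← Fin.cons_self_tail x.1, ← Fin.cons_self_tail y.1, hx2, hy2, hxy.1]
  refine (Finset.sum_le_card_nsmul _ _ _ h2).trans (le_of_eq ?_)
  rw [card_tup, nsmul_eq_mul]
  push_cast
  have h4 : ((2 * (h : ℤ)) ^ k) ^ 2 = (2 * h) ^ (2 * k) := by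
    rw [← pow_mul, mul_comm k 2]
  rw [mul_pow, h4]
  ring

end

end Pool.Agent.U187.NT
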