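import Pool.Agent.Y149.TL.Defs
import Pool.Agent.U187.MF.Defs

/-!
# Tensor products with sums of newforms on the edge line: definitions

`f x`, `x ∈ Ω`, are newforms of weight two, and `H e`, `e ∈ ι`, are motives over `ℚ` which are sums of
the motives of these newforms, for example `h¹(C_e)` for curves `C_e` with modular Jacobian.
-/

set_option autoImplicit false

namespace Pool.Agent.U187.NT

open Filter Topology Polynomial CongruenceSubgroup
open scoped MatrixGroups
open Pool.Agent.W165.RS (ac)
open Pool.Agent.Y149.TL (Motive IsEuler tensL)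

/-- The motive `H` (see `Pool.Agent.Y149.TL.Motive`) is the sum of the motives of the newforms `f x`,
`x ∈ Ω`, with the multiplicities `m x`: its weight is one, its rank is `2 ∑_x m x`, and for almost all
primes `p` the trace of Frobenius is `∑_x m x a_p(f x)`. -/
structure IsNewformMotive {Ω : Type} {L : Ω → ℕ}
    (f : ∀ x, CuspForm (Gamma0 (L x) : Subgroup (GL (Fin 2) ℝ)) 2) (H : Motive) (m : Ω →₀ ℕ) :
    Prop where
  weight : H.weight = 1
  rank : H.rank = 2 * m.sum fun _ k => k
  trace : ∀ᶠ p : Nat.Primes in cofinite, (H.frob p).sum = m.sum fun x k => (k : ℂ) * ac (f x) p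

/-- A family `H e`, `e ∈ ι`, of sums of newforms, with the multiplicities `m e`: the rank is at most
`2 h`, the sum of the squares of the multiplicities (the number `⟨H e, H e⟩`) is at most `V`, and for
every `e` there are at most `M` members which contain a newform contained in `H e`. -/
structure IsNewformFamily {Ω : Type} {L : Ω → ℕ}
    (f : ∀ x, CuspForm (Gamma0 (L x) : Subgroup (GL (Fin 2) ℝ)) 2) {ι : Type} (H : ι → Motive)
    (m : ι → Ω →₀ ℕ) (h V M : ℕ) : Prop where
  type : ∀ e, IsNewformMotive f (H e) (m e)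
  rank_le : ∀ e, ((m e).sum fun _ k => k) ≤ h
  sq_le : ∀ e, ((m e).sum fun _ k => k ^ 2) ≤ V
  mult : ∀ (e : ι) (S : Finset ι), (∀ e' ∈ S, ∃ x, m e x ≠ 0 ∧ m e' x ≠ 0) → S.card ≤ M

/-- `B` are the Euler factors of `L(H₀ ⊗ H_{l_1} ⊗ ⋯ ⊗ H_{l_k}, s)`, where the motives `H e` have
weight one. -/
def IsLFactor {ι : Type} (H₀ : Motive) (H : ι → Motive) (l : List ι) (B : Nat.Primes → ℂ[X]) :
    Prop :=
  IsEuler (H₀.weight + l.length) (fun p => tensL (H₀.frob p) (fun e => (H e).frob p) l) B

end Pool.Agent.U187.NT
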