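import Pool.Agent.U187.NT.Core

/-! One infinite family for countably many motives. -/

set_option autoImplicit false

open Finset Filter Topology Complex Polynomial

namespace Pool.Agent.U187.NT

open CongruenceSubgroup
open scoped MatrixGroups
open Pool.Agent.Y149.CM (LFun)
open Pool.Agent.Y149.TL (Motive IsEuler tensL HasOrder edge size Pure tensL_perm greedy)
open Pool.Agent.U187.MF (IsNewforms)

section
variable {ι : Type} {G : ι → Motive}

theorem factor_perm {H : Motive} {l l' : List ι} (h : l.Perm l')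
    {B : Nat.Primes → ℂ[X]} (hB : IsLFactor H G l B) : IsLFactor H G l' B := by
  unfold IsLFactor at *
  rw [← h.length_eq]
  have e : (fun p : Nat.Primes => tensL (H.frob p) (fun e => (G e).frob p) l') =
      fun p : Nat.Primes => tensL (H.frob p) (fun e => (G e).frob p) l := by
    funext p
    rw [tensL_perm _ _ h]
  rw [e]
  exact hB

variable {Ω : Type} {L : Ω → ℕ} {f : ∀ x, CuspForm (Gamma0 (L x) : Subgroup (GL (Fin 2) ℝ)) 2}
  {m : ι → Ω →₀ ℕ} {h V M : ℕ}

/-- the members which are bad together with the members of `A` -/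
def Bad (H : Motive) (G : ι → Motive) (A : Finset ι) : Set ι :=
  {e | ∃ (B : Nat.Primes → ℂ[X]) (τ : ℝ) (r : ℤ), r ≠ 0 ∧ IsLFactor H G (e :: A.toList) B ∧
    HasOrder (H.weight + A.card + 1) B τ r}

theorem bad_finite (hf : IsNewforms L f) (hG : IsNewformFamily f G m h V M) (H : Motive)
    (A : Finset ι) : (Bad H G A).Finite := by
  classical
  by_contra hinf
  set K : ℕ := 2 * M * V * (H.rank * (2 * h) ^ A.card) ^ 2 with hK
  obtain ⟨S, hS1, hS2⟩ := Set.Infinite.exists_subset_card_eq hinf (K + 1)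
  have hch : ∀ e : ι, ∃ (B : Nat.Primes → ℂ[X]) (τ : ℝ) (r : ℤ), e ∈ S → r ≠ 0 ∧
      IsLFactor H G (e :: A.toList) B ∧ HasOrder (H.weight + A.card + 1) B τ r := by
    intro e
    by_cases he : e ∈ S
    · obtain ⟨B, τ, r, h1⟩ := hS1 he
      exact ⟨B, τ, r, fun _ => h1⟩
    · exact ⟨fun _ => 0, 0, 0, fun h' => absurd h' he⟩
  choose B τ r hB using hch
  have hlen : (A.toList.length : ℤ) = A.card := by rw [Finset.length_toList]
  have h1 := tensL_eventually (w := H.weight) (N := H.rank) hG H.Pure A.toList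
  rw [Finset.length_toList] at h1
  have h2 := one_order hf hG h1 (S.image fun e => (e, τ e)) (B := fun x => B x.1)
    (fun x hx => by
      obtain ⟨e, he, rfl⟩ := Finset.mem_image.1 hx
      have h3 := (hB e he).2.1
      unfold IsLFactor at h3
      rw [List.length_cons, Finset.length_toList] at h3
      have e1 : H.weight + ((A.card + 1 : ℕ) : ℤ) = H.weight + A.card + 1 := by
        push_cast
        ring
      rw [e1] at h3
      exact h3) (r := fun x => r x.1) (fun x hx => by
      obtain ⟨e, he, rfl⟩ := Finset.mem_image.1 hx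
      exact (hB e he).2.2)
  rw [Finset.sum_image (fun x _ y _ hxy => congrArg Prod.fst hxy)] at h2
  have h3 : (S.card : ℤ) ≤ ∑ e ∈ S, r e ^ 2 := by
    rw [Finset.card_eq_sum_ones, Nat.cast_sum]
    refine Finset.sum_le_sum fun e he => ?_
    have h4 := (hB e he).1
    have h5 : (1 : ℤ) ≤ r e ^ 2 := by
      have := pow_pos (abs_pos.2 h4) 2
      rw [sq_abs] at this
      exact this
    exact_mod_cast h5
  have h4 := h3.trans h2
  rw [hS2] at h4
  have h5 : ((K + 1 : ℕ) : ℤ) ≤ (K : ℤ) := by
    refine h4.trans (le_of_eq ?_)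
    rw [hK]
    push_cast
    ring
  omega

/-- **One infinite family for countably many motives.** -/
theorem universal [Infinite ι] (hf : IsNewforms L f) (hG : IsNewformFamily f G m h V M)
    (H : ℕ → Motive) :
    ∃ 𝒥 : Set ι, 𝒥.Infinite ∧ ∀ j, ∃ F : Finset ι, (∀ x ∈ F, x ∈ 𝒥) ∧
      ∀ (k : ℕ) (l : Fin k → ι), Function.Injective l → (∀ i, l i ∈ 𝒥) → (∃ i, l i ∉ F) →
      ∀ B : Nat.Primes → ℂ[X], IsLFactor (H j) G (List.ofFn l) B →
      ∀ (τ : ℝ) (r : ℤ), HasOrder ((H j).weight + k) B τ r → r = 0 := by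
  classical
  obtain ⟨𝒥, hinf, h1⟩ := greedy (Bad := fun j A => Bad (H j) G A)
    fun j A => bad_finite hf hG (H j) A
  refine ⟨𝒥, hinf, fun j => ?_⟩
  obtain ⟨F, hF, h2⟩ := h1 j
  refine ⟨F, hF, fun k l hl hmem hex B hB τ r hr => ?_⟩
  set A : Finset ι := Finset.univ.image l with hA
  obtain ⟨e, he, hbad⟩ := h2 A (fun x hx => by
    obtain ⟨i, _, rfl⟩ := Finset.mem_image.1 hx
    exact hmem i) (by
    obtain ⟨i, hi⟩ := hex
    exact ⟨l i, Finset.mem_image_of_mem l (Finset.mem_univ i), hi⟩)
  have hperm : (List.ofFn l).Perm (e :: (A.erase e).toList) := by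
    have g1 : A.toList.Perm (e :: (A.erase e).toList) := by
      conv_lhs => rw [← Finset.insert_erase he]
      exact Finset.toList_insert (Finset.notMem_erase e A)
    refine List.Perm.trans ?_ g1
    rw [List.perm_ext_iff_of_nodup (List.nodup_ofFn.2 hl) (Finset.nodup_toList _)]
    intro x
    rw [Finset.mem_toList, List.mem_ofFn, hA, Finset.mem_image]
    simp
  have hcard : (A.erase e).card + 1 = k := by
    have g1 := hperm.length_eq
    rw [List.length_ofFn, List.length_cons, Finset.length_toList] at g1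
    exact g1.symm
  by_contra hr0
  refine hbad ⟨B, τ, r, hr0, factor_perm hperm hB, ?_⟩
  have e1 : (H j).weight + ((A.erase e).card : ℤ) + 1 = (H j).weight + k := by
    rw [← hcard]
    push_cast
    ring
  rw [e1]
  exact hr

end

end Pool.Agent.U187.NT
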